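import Pool.Agent.H29.DPC.S2

/-!
# DPC: rows TD1, TD2, TD3 (the Dirichlet character of a family)
-/

set_option autoImplicit false

namespace Pool.DPC

namespace TD

open DirichletCharacter

lemma cn_ne_zero (C : Finset Nat.Primes) : cn C ≠ 0 :=
  Finset.prod_ne_zero_iff.mpr fun l _ => l.2.ne_zero

lemma dvd_cn {C : Finset Nat.Primes} {l : Nat.Primes} (hl : l ∈ C) : (l : ℕ) ∣ cn C :=
  Finset.dvd_prod_of_mem (fun l : Nat.Primes => (l : ℕ)) hl

lemma dvd_cn_iff (C : Finset Nat.Primes) (l : Nat.Primes) : (l : ℕ) ∣ cn C ↔ l ∈ C := by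
  refine ⟨fun h => ?_, dvd_cn⟩
  obtain ⟨m, hm, h2⟩ := (Prime.dvd_finsetProd_iff l.2.prime _).mp h
  have h3 : (l : ℕ) = m := (Nat.prime_dvd_prime_iff_eq l.2 m.2).mp h2
  have h4 : l = m := Subtype.ext h3
  rw [h4]
  exact hm

lemma coprime_cn {C : Finset Nat.Primes} {a : ℕ} (h : ∀ l ∈ C, ¬ (l : ℕ) ∣ a) :
    a.Coprime (cn C) :=
  Nat.Coprime.prod_right fun l hl => (((Nat.Prime.coprime_iff_not_dvd l.2).mpr (h l hl))).symm

lemma prod_apply_unit {n : ℕ} {ι : Type*} (s : Finset ι) (f : ι → DirichletCharacter ℂ n)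
    (u : (ZMod n)ˣ) : (∏ i ∈ s, f i) (u : ZMod n) = ∏ i ∈ s, f i (u : ZMod n) := by
  classical
  induction s using Finset.induction_on with
  | empty => simp [MulChar.one_apply_coe]
  | insert i s hi ih => rw [Finset.prod_insert hi, Finset.prod_insert hi, MulChar.mul_apply, ih]

lemma toDC_nat (C : Finset Nat.Primes) (φ : Ch) (a : ℕ) (h : ∀ l ∈ C, ¬ (l : ℕ) ∣ a) :
    toDC C φ (a : ZMod (cn C)) = ∏ l ∈ C, φ l (a : ZMod (l : ℕ)) := by
  have hu := ZMod.coe_unitOfCoprime a (coprime_cn h)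
  have h1 : toDC C φ (a : ZMod (cn C)) =
      ∏ l ∈ C.attach, φ l (a : ZMod ((l : Nat.Primes) : ℕ)) := by
    rw [← hu]
    refine (prod_apply_unit _ _ _).trans ?_
    refine Finset.prod_congr rfl fun l _ => ?_
    refine (changeLevel_eq_cast_of_dvd _ _ _).trans ?_
    rw [hu]
    exact congrArg _ (ZMod.cast_natCast (dvd_cn l.2) a)
  rw [h1]
  exact Finset.prod_attach C fun l => φ l (a : ZMod (l : ℕ))

lemma toDC_mul (C : Finset Nat.Primes) (φ χ : Ch) : toDC C (φ * χ) = toDC C φ * toDC C χ := by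
  refine Eq.trans ?_ Finset.prod_mul_distrib
  exact Finset.prod_congr rfl fun l _ => map_mul _ _ _

lemma toDC_one (C : Finset Nat.Primes) : toDC C 1 = 1 := by
  exact Finset.prod_eq_one fun l _ => map_one _

lemma isUnit_of_not_dvd {l : Nat.Primes} {a : ℕ} (h : ¬ (l : ℕ) ∣ a) :
    IsUnit (a : ZMod (l : ℕ)) :=
  (ZMod.isUnit_iff_coprime a l).mpr ((Nat.Prime.coprime_iff_not_dvd l.2).mpr h).symm

lemma apply_of_not_mem {φ : Ch} {l : Nat.Primes} (hl : l ∉ sup φ) {x : ZMod (l : ℕ)}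
    (hx : IsUnit x) : φ l x = 1 := by
  have h1 : φ l = 1 := by
    by_contra h
    exact hl h
  rw [h1]
  exact MulChar.one_apply hx

lemma ev_eq (C : Finset Nat.Primes) (φ : Ch) (a : ℕ) (hC : sup φ ⊆ C)
    (h : ∀ l ∈ C, ¬ (l : ℕ) ∣ a) : ev φ a = ∏ l ∈ C, φ l (a : ZMod (l : ℕ)) := by
  unfold ev
  refine finprod_mem_eq_prod_of_inter_mulSupport_eq _ ?_
  ext l
  constructor
  · rintro ⟨h1, h2⟩
    exact ⟨hC h1, h2⟩
  · rintro ⟨h1, h2⟩
    refine ⟨?_, h2⟩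
    by_contra h3
    exact h2 (apply_of_not_mem h3 (isUnit_of_not_dvd (h l h1)))

lemma even_iff (C : Finset Nat.Primes) (φ : Ch) (hC : sup φ ⊆ C) :
    (toDC C φ).Even ↔ ∏ᶠ l : Nat.Primes, φ l (-1) = 1 := by
  have h1 : toDC C φ (-1) = ∏ᶠ l : Nat.Primes, φ l (-1) := by
    have h2 : toDC C φ (-1) = ∏ l ∈ C.attach, φ l (-1) := by
      have hu : ((-1 : (ZMod (cn C))ˣ) : ZMod (cn C)) = -1 := by simp
      rw [← hu]
      refine (prod_apply_unit _ _ _).trans ?_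
      refine Finset.prod_congr rfl fun l _ => ?_
      refine (changeLevel_eq_cast_of_dvd _ _ _).trans ?_
      rw [hu]
      refine congrArg _ ?_
      have h3 : (ZMod.cast (-1 : ZMod (cn C)) : ZMod (l.1 : ℕ)) = -ZMod.cast (1 : ZMod (cn C)) :=
        ZMod.cast_neg (R := ZMod (l.1 : ℕ)) (dvd_cn l.2) (1 : ZMod (cn C))
      have h4 : (ZMod.cast (1 : ZMod (cn C)) : ZMod (l.1 : ℕ)) = 1 :=
        ZMod.cast_one (R := ZMod (l.1 : ℕ)) (dvd_cn l.2)
      rw [h4] at h3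
      exact h3
    rw [h2, Finset.prod_attach C fun l => φ l (-1)]
    refine (finprod_eq_prod_of_mulSupport_subset _ ?_).symm
    intro l hl
    by_contra h3
    exact hl (apply_of_not_mem (fun h4 => h3 (hC h4)) isUnit_one.neg)
  unfold DirichletCharacter.Even
  rw [h1]

end TD

theorem t_td1 : TD1Stmt :=
  ⟨TD.toDC_mul, TD.toDC_one, fun C φ a hC h => by rw [TD.toDC_nat C φ a h, TD.ev_eq C φ a hC h],
    TD.even_iff⟩

end Pool.DPC
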