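import Pool.Agent.H50.DPC.TD1

/-!
# DPC: row TD2 (the map from families to Dirichlet characters is bijective)
-/

set_option autoImplicit false

namespace Pool.DPC

namespace TD

open DirichletCharacter

lemma pairwise_coprime (C : Finset Nat.Primes) :
    Set.Pairwise (C : Set Nat.Primes) (Function.onFun Nat.Coprime fun l : Nat.Primes => (l : ℕ)) :=
  fun l _ m _ hne => (Nat.coprime_primes l.2 m.2).mpr fun h => hne (Subtype.ext h)

lemma exists_lift (C : Finset Nat.Primes) (l : Nat.Primes) (hl : l ∈ C) (u : (ZMod (l : ℕ))ˣ) :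
    ∃ a : ℕ, (a : ZMod (l : ℕ)) = u ∧ (∀ m ∈ C, m ≠ l → (a : ZMod (m : ℕ)) = 1) ∧
      ∀ m ∈ C, ¬ (m : ℕ) ∣ a := by
  classical
  have : Fact (l : ℕ).Prime := ⟨l.2⟩
  obtain ⟨a, ha⟩ := Nat.chineseRemainderOfFinset
    (fun m : Nat.Primes => if m = l then (u : ZMod (l : ℕ)).val else 1)
    (fun m : Nat.Primes => (m : ℕ)) C (fun m _ => m.2.ne_zero) (pairwise_coprime C)
  have h1 : (a : ZMod (l : ℕ)) = u := by
    have h := (ZMod.natCast_eq_natCast_iff _ _ _).mpr (ha l hl)
    rw [h]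
    simp
  have h2 : ∀ m ∈ C, m ≠ l → (a : ZMod (m : ℕ)) = 1 := by
    intro m hm hne
    have h := (ZMod.natCast_eq_natCast_iff _ _ _).mpr (ha m hm)
    rw [h]
    simp [hne]
  refine ⟨a, h1, h2, fun m hm hd => ?_⟩
  have : Fact (m : ℕ).Prime := ⟨m.2⟩
  have h3 : (a : ZMod (m : ℕ)) = 0 := (ZMod.natCast_eq_zero_iff _ _).mpr hd
  by_cases hne : m = l
  · subst hne
    rw [h1] at h3
    exact u.ne_zero h3
  · rw [h2 m hm hne] at h3
    exact one_ne_zero h3

lemma toDC_lift (C : Finset Nat.Primes) (φ : Ch) (l : Nat.Primes) (hl : l ∈ C)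
    (u : (ZMod (l : ℕ))ˣ) (a : ℕ) (h1 : (a : ZMod (l : ℕ)) = u)
    (h2 : ∀ m ∈ C, m ≠ l → (a : ZMod (m : ℕ)) = 1) (h3 : ∀ m ∈ C, ¬ (m : ℕ) ∣ a) :
    toDC C φ (a : ZMod (cn C)) = φ l u := by
  rw [toDC_nat C φ a h3, Finset.prod_eq_single_of_mem l hl, h1]
  intro m hm hne
  rw [h2 m hm hne, map_one]

lemma toDC_inj (C : Finset Nat.Primes) (φ χ : Ch) (h : toDC C φ = toDC C χ) :
    ∀ l ∈ C, φ l = χ l := by
  intro l hl
  refine MulChar.ext fun u => ?_
  obtain ⟨a, h1, h2, h3⟩ := exists_lift C l hl u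
  rw [← toDC_lift C φ l hl u a h1 h2 h3, ← toDC_lift C χ l hl u a h1 h2 h3, h]

lemma totient_cn (C : Finset Nat.Primes) : (cn C).totient = ∏ l ∈ C, (l : ℕ).totient := by
  classical
  unfold cn
  induction C using Finset.induction_on with
  | empty => simp
  | insert l C hl ih =>
    rw [Finset.prod_insert hl, Finset.prod_insert hl, Nat.totient_mul, ih]
    refine Nat.Coprime.prod_right fun m hm => (Nat.coprime_primes l.2 m.2).mpr fun h => ?_
    have h4 : l = m := Subtype.ext h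
    rw [h4] at hl
    exact hl hm

open Classical in
/-- a family given on `C` -/
noncomputable def ext (C : Finset Nat.Primes)
    (g : (l : {l : Nat.Primes // l ∈ C}) → DirichletCharacter ℂ ((l : Nat.Primes) : ℕ)) : Ch :=
  fun l => if h : l ∈ C then g ⟨l, h⟩ else 1

lemma sup_ext (C : Finset Nat.Primes)
    (g : (l : {l : Nat.Primes // l ∈ C}) → DirichletCharacter ℂ ((l : Nat.Primes) : ℕ)) :
    sup (ext C g) ⊆ C := by
  intro l hl
  by_contra h
  refine hl ?_
  unfold ext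
  exact dif_neg h

lemma toDC_surj (C : Finset Nat.Primes) (psi : DirichletCharacter ℂ (cn C)) :
    ∃ φ : Ch, sup φ ⊆ C ∧ toDC C φ = psi := by
  classical
  have : NeZero (cn C) := ⟨cn_ne_zero C⟩
  have h0 : ∀ l : {l : Nat.Primes // l ∈ C}, NeZero ((l : Nat.Primes) : ℕ) :=
    fun l => ⟨l.1.2.ne_zero⟩
  have : Finite (DirichletCharacter ℂ (cn C)) := MulChar.finite
  have : ∀ l : {l : Nat.Primes // l ∈ C}, Finite (DirichletCharacter ℂ ((l : Nat.Primes) : ℕ)) :=
    fun l => MulChar.finite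
  have hinj : Function.Injective (fun g => toDC C (ext C g)) := by
    intro g g' h
    funext l
    have h1 := toDC_inj C _ _ h l.1 l.2
    unfold ext at h1
    rw [dif_pos l.2, dif_pos l.2] at h1
    exact h1
  have hcard : Nat.card (DirichletCharacter ℂ (cn C)) ≤
      Nat.card ((l : {l : Nat.Primes // l ∈ C}) →
        DirichletCharacter ℂ ((l : Nat.Primes) : ℕ)) := by
    rw [DirichletCharacter.card_eq_totient_of_hasEnoughRootsOfUnity, totient_cn, Nat.card_pi,
      ← Finset.prod_coe_sort]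
    refine le_of_eq (Finset.prod_congr rfl fun l _ => ?_)
    exact (DirichletCharacter.card_eq_totient_of_hasEnoughRootsOfUnity _ _).symm
  obtain ⟨g, hg⟩ := (hinj.bijective_of_nat_card_le hcard).2 psi
  exact ⟨ext C g, sup_ext C g, hg⟩

end TD

theorem t_td2 : TD2Stmt :=
  ⟨fun C φ χ hφ hχ h => by
    funext l
    by_cases hl : l ∈ C
    · exact TD.toDC_inj C φ χ h l hl
    · have h1 : φ l = 1 := by
        by_contra h2
        exact hl (hφ h2)
      have h2 : χ l = 1 := by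
        by_contra h2
        exact hl (hχ h2)
      rw [h1, h2], TD.toDC_surj⟩

end Pool.DPC
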