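import Pool.Agent.H50.DPC.TD2

/-!
# DPC: row TD3 (conductors and levels)
-/

set_option autoImplicit false

namespace Pool.DPC

namespace TD

open DirichletCharacter

lemma changeLevel_nat {n m : ℕ} (h : n ∣ m) (psi : DirichletCharacter ℂ n) (a : ℕ)
    (ha : a.Coprime m) : changeLevel h psi (a : ZMod m) = psi (a : ZMod n) := by
  have hu := ZMod.coe_unitOfCoprime a ha
  rw [← hu, changeLevel_eq_cast_of_dvd, hu, ZMod.cast_natCast h]

lemma ext_nat {m : ℕ} [NeZero m] {psi chi : DirichletCharacter ℂ m}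
    (h : ∀ a : ℕ, a.Coprime m → psi (a : ZMod m) = chi (a : ZMod m)) : psi = chi := by
  refine MulChar.ext fun u => ?_
  have h1 : ((u : ZMod m).val : ZMod m) = u := ZMod.natCast_zmod_val _
  rw [← h1]
  exact h _ (ZMod.val_coe_unit_coprime u)

lemma not_dvd_of_coprime_cn {C : Finset Nat.Primes} {a : ℕ} (h : a.Coprime (cn C)) :
    ∀ l ∈ C, ¬ (l : ℕ) ∣ a := by
  intro l hl hd
  have h1 : (l : ℕ) ∣ Nat.gcd a (cn C) := Nat.dvd_gcd hd (dvd_cn hl)
  rw [h] at h1
  exact l.2.one_lt.ne' (Nat.dvd_one.mp h1)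

lemma toDC_changeLevel (C C' : Finset Nat.Primes) (φ : Ch) (h : cn C ∣ cn C') (hC : sup φ ⊆ C)
    (hCC : C ⊆ C') : toDC C' φ = changeLevel h (toDC C φ) := by
  have : NeZero (cn C') := ⟨cn_ne_zero C'⟩
  refine ext_nat fun a ha => ?_
  have h1 := not_dvd_of_coprime_cn ha
  rw [changeLevel_nat h _ a ha, toDC_nat C' φ a h1, toDC_nat C φ a fun l hl => h1 l (hCC hl)]
  refine (Finset.prod_subset hCC fun l hl hl' => ?_).symm
  exact apply_of_not_mem (fun h4 => hl' (hC h4)) (isUnit_of_not_dvd (h1 l hl))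

lemma cn_erase {C : Finset Nat.Primes} {l : Nat.Primes} (hl : l ∈ C) :
    (l : ℕ) * cn (C.erase l) = cn C :=
  Finset.mul_prod_erase C (fun l : Nat.Primes => (l : ℕ)) hl

lemma conductor_iff (C : Finset Nat.Primes) (φ : Ch) (l : Nat.Primes) (hC : sup φ ⊆ C)
    (hl : l ∈ C) : (l : ℕ) ∣ (toDC C φ).conductor ↔ φ l ≠ 1 := by
  have : NeZero (cn C) := ⟨cn_ne_zero C⟩
  have hd : cn (C.erase l) ∣ cn C := ⟨(l : ℕ), by rw [mul_comm, cn_erase hl]⟩
  have hnd : ¬ (l : ℕ) ∣ cn (C.erase l) := by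
    rw [dvd_cn_iff]
    exact Finset.notMem_erase l C
  constructor
  · intro h h1
    have hC' : sup φ ⊆ (C.erase l : Finset Nat.Primes) := by
      intro m hm
      have hne : m ≠ l := by
        rintro rfl
        exact hm h1
      exact Finset.mem_coe.mpr (Finset.mem_erase.mpr ⟨hne, hC hm⟩)
    have h2 := toDC_changeLevel (C.erase l) C φ hd hC' (Finset.erase_subset l C)
    have h3 : (toDC C φ).FactorsThrough (cn (C.erase l)) := ⟨hd, _, h2⟩
    have h4 : (toDC C φ).conductor ∣ cn (C.erase l) :=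
      DirichletCharacter.conductor_dvd_of_mem_conductorSet _ h3
    exact hnd (h.trans h4)
  · intro h1
    by_contra h
    have h2 : (toDC C φ).conductor ∣ cn (C.erase l) := by
      have h3 : (toDC C φ).conductor ∣ (l : ℕ) * cn (C.erase l) := by
        rw [cn_erase hl]
        exact DirichletCharacter.conductor_dvd_level _
      exact (((Nat.Prime.coprime_iff_not_dvd l.2).mpr h).symm).dvd_of_dvd_mul_left h3
    have h3 : (toDC C φ).FactorsThrough (cn (C.erase l)) := by
      refine ⟨hd, changeLevel h2 (toDC C φ).primitiveCharacter, ?_⟩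
      rw [← changeLevel_trans _ h2 hd]
      exact (DirichletCharacter.changeLevel_primitiveCharacter _).symm
    obtain ⟨_, chi, h4⟩ := h3
    obtain ⟨φ', h5, h6⟩ := toDC_surj (C.erase l) chi
    have h7 : toDC C φ = toDC C φ' := by
      rw [h4, ← h6]
      exact (toDC_changeLevel (C.erase l) C φ' hd h5 (Finset.erase_subset l C)).symm
    have h8 := toDC_inj C φ φ' h7 l hl
    refine h1 (h8.trans ?_)
    by_contra h9
    exact Finset.notMem_erase l C (h5 h9)

lemma squarefree_cn (C : Finset Nat.Primes) : Squarefree (cn C) := by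
  classical
  unfold cn
  induction C using Finset.induction_on with
  | empty => simp
  | insert l C hl ih =>
    rw [Finset.prod_insert hl]
    refine (Nat.squarefree_mul ?_).mpr ⟨l.2.prime.squarefree, ih⟩
    refine Nat.Coprime.prod_right fun m hm => (Nat.coprime_primes l.2 m.2).mpr fun h => ?_
    have h4 : l = m := Subtype.ext h
    rw [h4] at hl
    exact hl hm

lemma exists_cn (f : ℕ) (hf : Squarefree f) : ∃ C : Finset Nat.Primes, cn C = f := by
  refine ⟨f.primeFactors.subtype Nat.Prime, ?_⟩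
  have h1 := Nat.prod_primeFactors_of_squarefree hf
  have h2 : ∏ x ∈ f.primeFactors.subtype Nat.Prime, (x : ℕ) = ∏ p ∈ f.primeFactors, p :=
    Finset.prod_subtype_of_mem (fun p : ℕ => p) fun p hp => Nat.prime_of_mem_primeFactors hp
  exact h2.trans h1

end TD

theorem t_td3 : TD3Stmt :=
  ⟨TD.conductor_iff, TD.toDC_changeLevel, TD.exists_cn,
    fun C => ⟨TD.squarefree_cn C, TD.dvd_cn_iff C⟩⟩

end Pool.DPC
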